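import Pool.Agent.Q253.P3.AP

/-!
# The k-fold Oppermann conjecture: `k` numbers with the same number `≤ 3` of prime factors, in arithmetic progression

For every `k`, for all large `n` EACH of the intervals `(n ^ 2 - n, n ^ 2]` and `(n ^ 2, n ^ 2 + n]` contains an arithmetic progression of
length `k`, with difference at most a power of `log n`, which consists of primes only, or of products of two primes only, or of
products of three primes only, and is contained in one class of any given finite colouring.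

Libraries (starting files): the weighted linear sieve `Y882.KW`, `W378.DC.MP`, Szemerédi's theorem relative to sifted sets `Y843.HS.fin`.
-/

set_option autoImplicit false

namespace Pool.Agent.Results.MP_1e9cc8_nt.Progressions

open Finset Filter
open Pool.Agent.Q253.P3

open Classical in
/-- the numbers of `(A, A + H]` with at most three prime factors, all at least `X ^ (39 / 400)` -/
noncomputable def AlmostPrimes (X A H : ℕ) : Finset ℕ :=
  (Ioc A (A + H)).filter (fun n => n.primeFactorsList.length ≤ 3 ∧ ∀ q : ℕ, q.Prime → q ∣ n → (X : ℝ) ^ (39 / 400 : ℝ) ≤ q)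

/-- **Progressions in Oppermann's intervals.** (1) There is `δ > 0` such that for all large `X` EVERY interval `(A, A + H]` with
`A + H ≤ X` and `H ≥ X ^ (2/5)` contains at least `δ H / log X` integers with at most three prime factors, all
`≥ X ^ (39/400)`. (2) For every `k` and `ε > 0` there is `D` such that for all large `X` and all these intervals every set of at
least `ε H / log X` of these integers contains an arithmetic progression of length `k` with a difference `≤ log ^ D X`. (3) For
all `k` and `r` there is `D` such that for all large `n` and every colouring of the integers with `r` colours, EACH of the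
intervals `(n ^ 2 - n, n ^ 2]` and `(n ^ 2, n ^ 2 + n]` contains an arithmetic progression of length `k` with a difference `≤ log ^ D n`
all of whose elements have the same colour and the same number `s ∈ {1, 2, 3}` of prime factors (with multiplicity), all
prime factors being `≥ n ^ (39/200)`. -/
theorem result :
    (∃ δ : ℝ, 0 < δ ∧ ∃ X₀ : ℕ, ∀ X : ℕ, X₀ ≤ X → ∀ A H : ℕ, A + H ≤ X → (X : ℝ) ^ (2 / 5 : ℝ) ≤ H →
      δ * (H / Real.log X) ≤ ((AlmostPrimes X A H).card : ℝ)) ∧
    (∀ (k : ℕ) (ε : ℝ), 0 < ε → ∃ D X₀ : ℕ, ∀ X : ℕ, X₀ ≤ X → ∀ A H : ℕ, A + H ≤ X → (X : ℝ) ^ (2 / 5 : ℝ) ≤ H →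
      ∀ S ⊆ AlmostPrimes X A H, ε * (H / Real.log X) ≤ (S.card : ℝ) →
        ∃ a d : ℕ, 1 ≤ d ∧ (d : ℝ) ≤ Real.log X ^ D ∧ ∀ j < k, a + j * d ∈ S) ∧
    (∀ k r : ℕ, 1 ≤ r → ∃ D N₀ : ℕ, ∀ n : ℕ, N₀ ≤ n → ∀ col : ℕ → Fin r, ∀ A : ℕ, A = n ^ 2 - n ∨ A = n ^ 2 →
      ∃ s : ℕ, (s = 1 ∨ s = 2 ∨ s = 3) ∧ ∃ b : Fin r, ∃ a d : ℕ, 1 ≤ d ∧ (d : ℝ) ≤ Real.log n ^ D ∧ ∀ j < k,
        A < a + j * d ∧ a + j * d ≤ A + n ∧ (a + j * d).primeFactorsList.length = s ∧ col (a + j * d) = b ∧
        ∀ p : ℕ, p.Prime → p ∣ a + j * d → (n : ℝ) ^ (39 / 200 : ℝ) ≤ p) := by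
  classical
  have hAP : ∀ X A H : ℕ, AlmostPrimes X A H = G3 X (39 / 400) A H := fun X A H => rfl
  refine ⟨?_, ?_, ?_⟩
  · obtain ⟨δ, hδ, X₀, h⟩ := p3
    exact ⟨δ, hδ, X₀, h⟩
  · intro k ε hε
    exact p3_ap k ε hε
  · intro k r hr
    have hr0 : (0 : ℝ) < r := by exact_mod_cast hr
    obtain ⟨δ, hδ, X₁, h1⟩ := p3
    obtain ⟨D, X₂, h2⟩ := p3_ap k (δ / (3 * r)) (by positivity)
    have ev : ∀ᶠ n : ℕ in atTop, (3 : ℝ) ≤ Real.log n :=
      (Real.tendsto_log_atTop.comp tendsto_natCast_atTop_atTop).eventually_ge_atTop _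
    obtain ⟨N₁, hN₁⟩ := eventually_atTop.1 ev
    refine ⟨2 * D, max (max X₁ X₂) (max N₁ 16), ?_⟩
    intro n hn col A hA
    have n1 : X₁ ≤ n := ((le_max_left _ _).trans (le_max_left _ _)).trans hn
    have n2 : X₂ ≤ n := ((le_max_right _ _).trans (le_max_left _ _)).trans hn
    have n3 : N₁ ≤ n := ((le_max_left _ _).trans (le_max_right _ _)).trans hn
    have n4 : 16 ≤ n := ((le_max_right _ _).trans (le_max_right _ _)).trans hn
    have hlog3 := hN₁ n n3
    have hnr : (16 : ℝ) ≤ n := by exact_mod_cast n4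
    have hn0 : (0 : ℝ) < n := by linarith
    have hnn : n ≤ n ^ 2 := Nat.le_self_pow (by norm_num) n
    set X : ℕ := A + n with hX
    have hXn : n ^ 2 ≤ X := by rcases hA with h | h <;> omega
    have hXn2 : X ≤ n ^ 3 := by
      have h3 : n ^ 2 + n ≤ n ^ 3 := by nlinarith [Nat.pow_le_pow_left n4 2]
      rcases hA with h | h <;> omega
    have hXr : (n : ℝ) ^ 2 ≤ X := by exact_mod_cast hXn
    have hX2r : (X : ℝ) ≤ (n : ℝ) ^ 3 := by exact_mod_cast hXn2
    have hX0 : (0 : ℝ) < X := by nlinarith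
    have hH : (X : ℝ) ^ (2 / 5 : ℝ) ≤ n := by
      have hX4 : (X : ℝ) ≤ 2 * (n : ℝ) ^ 2 := by
        have : X ≤ 2 * n ^ 2 := by rcases hA with h | h <;> omega
        exact_mod_cast this
      have h3 : (X : ℝ) ≤ (n : ℝ) ^ (5 / 2 : ℝ) := by
        refine hX4.trans ?_
        have h4 : (n : ℝ) ^ (5 / 2 : ℝ) = (n : ℝ) ^ (1 / 2 : ℝ) * (n : ℝ) ^ 2 := by
          rw [← Real.rpow_natCast, ← Real.rpow_add hn0]
          norm_num
        rw [h4]
        apply mul_le_mul_of_nonneg_right _ (by positivity)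
        rw [← Real.sqrt_eq_rpow]
        apply Real.le_sqrt_of_sq_le
        linarith
      calc (X : ℝ) ^ (2 / 5 : ℝ) ≤ ((n : ℝ) ^ (5 / 2 : ℝ)) ^ (2 / 5 : ℝ) :=
            Real.rpow_le_rpow hX0.le h3 (by norm_num)
        _ = n := by
            rw [← Real.rpow_mul hn0.le]
            norm_num
    have hG := h1 X (by omega) A n le_rfl hH
    have hmem : ∀ m ∈ G3 X (39 / 400) A n, (A < m ∧ m ≤ A + n) ∧ m.primeFactorsList.length ≤ 3 ∧
        ∀ q : ℕ, q.Prime → q ∣ m → (X : ℝ) ^ (39 / 400 : ℝ) ≤ q := by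
      intro m hm
      unfold G3 at hm
      rw [mem_filter, mem_Ioc] at hm
      exact hm
    -- the classes
    set K : Finset (ℕ × Fin r) := ({1, 2, 3} : Finset ℕ) ×ˢ univ with hK
    have hKc : K.card = 3 * r := by
      rw [hK, card_product, card_univ, Fintype.card_fin]
      rfl
    have hcov : G3 X (39 / 400) A n ⊆ K.biUnion (fun c => (G3 X (39 / 400) A n).filter
        (fun m => m.primeFactorsList.length = c.1 ∧ col m = c.2)) := by
      intro m hm
      rw [mem_biUnion]
      refine ⟨(m.primeFactorsList.length, col m), ?_, ?_⟩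
      · rw [hK, mem_product]
        refine ⟨?_, mem_univ _⟩
        obtain ⟨a1, a2, _⟩ := hmem m hm
        have h3 : m.primeFactorsList.length ≠ 0 := by
          intro h
          have h4 := List.length_eq_zero_iff.1 h
          rw [Nat.primeFactorsList_eq_nil] at h4
          have : 240 ≤ n ^ 2 - n := by
            have : 16 * n ≤ n ^ 2 := by nlinarith
            omega
          rcases hA with h5 | h5 <;> omega
        simp only [mem_insert, mem_singleton]
        omega
      · rw [mem_filter]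
        exact ⟨hm, rfl, rfl⟩
    obtain ⟨c, hc, hcc⟩ : ∃ c ∈ K, δ / (3 * r) * (n / Real.log X) ≤
        (((G3 X (39 / 400) A n).filter (fun m => m.primeFactorsList.length = c.1 ∧ col m = c.2)).card : ℝ) := by
      by_contra hcon
      push Not at hcon
      have h3 : ((G3 X (39 / 400) A n).card : ℝ) ≤ ∑ c ∈ K,
          ((((G3 X (39 / 400) A n).filter (fun m => m.primeFactorsList.length = c.1 ∧ col m = c.2)).card : ℕ) : ℝ) := by
        exact_mod_cast (card_le_card hcov).trans card_biUnion_le
      have hKne : K.Nonempty := by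
        rw [← card_pos, hKc]
        omega
      have h4 := sum_lt_sum_of_nonempty hKne hcon
      rw [sum_const, hKc, nsmul_eq_mul] at h4
      have h5 : ((3 * r : ℕ) : ℝ) * (δ / (3 * r) * (n / Real.log X)) = δ * (n / Real.log X) := by
        push_cast
        field_simp
      rw [h5] at h4
      linarith
    obtain ⟨a, d, hd1, hd2, hd3⟩ := h2 X (by omega) A n le_rfl hH _ (filter_subset _ _) hcc
    refine ⟨c.1, ?_, c.2, a, d, hd1, ?_, ?_⟩
    · have := (mem_product.1 hc).1
      simpa only [mem_insert, mem_singleton] using this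
    · refine hd2.trans ?_
      have h3 : Real.log X ≤ 3 * Real.log n := by
        have := Real.log_le_log hX0 hX2r
        rwa [Real.log_pow, Nat.cast_ofNat] at this
      have hlX : 0 ≤ Real.log X := Real.log_nonneg (by nlinarith)
      calc Real.log X ^ D ≤ (Real.log n ^ 2) ^ D := by
            apply pow_le_pow_left₀ hlX
            nlinarith
        _ = _ := by rw [← pow_mul]
    · intro j hj
      have h3 := hd3 j hj
      rw [mem_filter] at h3
      obtain ⟨h4, h5, h6⟩ := h3
      obtain ⟨⟨b1, b2⟩, _, b3⟩ := hmem _ h4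
      refine ⟨b1, b2, h5, h6, ?_⟩
      intro p hp hpd
      refine le_trans ?_ (b3 p hp hpd)
      calc (n : ℝ) ^ (39 / 200 : ℝ) = ((n : ℝ) ^ 2) ^ (39 / 400 : ℝ) := by
            rw [← Real.rpow_natCast, ← Real.rpow_mul hn0.le]
            norm_num
        _ ≤ _ := Real.rpow_le_rpow (by positivity) hXr (by norm_num)

end Pool.Agent.Results.MP_1e9cc8_nt.Progressions
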