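import Pool.Agent.Q117.SI.All3

/-!
# MP_1e9cc8_nt: strings of consecutive almost primes in residue classes in both intervals of Oppermann
-/

set_option autoImplicit false

namespace Pool.Agent.Results.MP_1e9cc8_nt.StringsOfResidues

open Finset Filter
open Pool.Agent.Q117.LF (Ro Ty)
open Pool.Agent.Q117.SI

/-- the integers `r` which are the first of `J + 1` integers `r = m 0 < m 1 < ... < m J ≤ r + L` in `(A, B]` with `m j ≡ a j (mod q)`, all rough (no prime factor `≤ z`), `m j₁` being a product of at most three primes, all `≥ w`, such that every rough integer at distance `≤ L` from `r` is one of the `m j` -/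
def Strings {J : ℕ} (q : ℕ) (a : Fin (J + 1) → ℕ) (j₁ : Fin (J + 1)) (w z L : ℝ) (A B : ℕ) : Set ℕ :=
  {r : ℕ | ∃ m : Fin (J + 1) → ℕ, m 0 = r ∧ StrictMono m ∧ (∀ j, A < m j ∧ m j ≤ B ∧ (m j : ℝ) ≤ r + L) ∧ (∀ j, m j ≡ a j [MOD q]) ∧
    (∀ j, Ro z (m j)) ∧ (m j₁).primeFactorsList.length ≤ 3 ∧ (∀ p : ℕ, p.Prime → p ∣ m j₁ → w ≤ p) ∧ ∀ s : ℤ, |((s - r : ℤ) : ℝ)| ≤ L → Ro z s → ∃ j, s = m j}

theorem main (hS : STIc) (J q : ℕ) (hq : 1 ≤ q) (a : Fin (J + 1) → ℕ) (ha : ∀ j, (a j).Coprime q) (j₁ : Fin (J + 1)) :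
    ∃ t : ℕ, 1 ≤ t ∧ ∃ c : ℝ, 0 < c ∧ ∃ ν : ℝ, 0 < ν ∧ ∃ n₀ : ℕ, ∀ n : ℕ, n₀ ≤ n → ∀ A ∈ ({n ^ 2 - n, n ^ 2} : Finset ℕ),
      c * (n / Real.log n) ≤ ((Strings q a j₁ ((n : ℝ) ^ (1 / 8 : ℝ)) ((2 * (n : ℝ) ^ 2) ^ (1 / (t : ℝ))) (ν * Real.log (2 * (n : ℝ) ^ 2)) A (A + n)).ncard : ℝ) := by
  classical
  obtain ⟨t, ht, c, hc, ν, hν, X0, H⟩ := hS J 1 q 1 3 (48 / 100) (fun _ => {0}) hq le_rfl (by norm_num) (by norm_num) (by norm_num)
    (fun _ => ⟨card_singleton 0, mem_singleton_self 0⟩) (fun x y _ => Subsingleton.elim x y) (fun _ => 0) a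
    (fun j p hp => ⟨1, fun h hh => by
      rw [mem_singleton] at hh
      rw [hh, add_zero, Nat.dvd_one]
      exact hp.one_lt.ne'⟩)
    (fun j h hh => by
      rw [mem_singleton] at hh
      rw [hh, add_zero]
      exact ha j) j₁ 0 (mem_singleton_self 0)
  have hlog : ∀ᶠ x : ℝ in atTop, ν * Real.log (2 * x ^ 2) + 2 ≤ x / 4 := by
    have h1 : Tendsto (fun x : ℝ => Real.log x / x) atTop (nhds 0) := by
      have := Real.isLittleO_log_id_atTop.tendsto_div_nhds_zero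
      simpa using this
    have h2 : ∀ᶠ x : ℝ in atTop, Real.log x / x ≤ 1 / (16 * ν) := h1.eventually_le_const (by positivity)
    filter_upwards [h2, eventually_ge_atTop (max 100 (Real.log 2 * ν * 16))] with x hx hx2
    have hx3 : 100 ≤ x := (le_max_left _ _).trans hx2
    have hx4 : Real.log 2 * ν * 16 ≤ x := (le_max_right _ _).trans hx2
    have hx0 : 0 < x := by linarith
    rw [div_le_div_iff₀ hx0 (by positivity)] at hx
    rw [Real.log_mul (by norm_num) (by positivity), Real.log_pow]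
    push_cast
    nlinarith
  have hpow : ∀ᶠ x : ℝ in atTop, (2 * x ^ 2) ^ (48 / 100 : ℝ) ≤ x / 2 := by
    have h1 : Tendsto (fun x : ℝ => x ^ (4 / 100 : ℝ)) atTop atTop := tendsto_rpow_atTop (by norm_num)
    filter_upwards [h1.eventually_ge_atTop 4, eventually_ge_atTop (1 : ℝ)] with x hx hx1
    have hx0 : 0 < x := by linarith
    rw [Real.mul_rpow (by norm_num) (by positivity), ← Real.rpow_natCast x 2, ← Real.rpow_mul hx0.le]
    have h2 : (2 : ℝ) ^ (48 / 100 : ℝ) ≤ 2 := by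
      calc (2 : ℝ) ^ (48 / 100 : ℝ) ≤ (2 : ℝ) ^ (1 : ℝ) := Real.rpow_le_rpow_of_exponent_le (by norm_num) (by norm_num)
        _ = 2 := Real.rpow_one _
    have h3 : x = x ^ (((2 : ℕ) : ℝ) * (48 / 100 : ℝ)) * x ^ (4 / 100 : ℝ) := by
      rw [← Real.rpow_add hx0]
      norm_num
    have h4 : 0 < x ^ (((2 : ℕ) : ℝ) * (48 / 100 : ℝ)) := Real.rpow_pos_of_pos hx0 _
    have h5 : (2 : ℝ) ^ (48 / 100 : ℝ) * x ^ (((2 : ℕ) : ℝ) * (48 / 100 : ℝ)) ≤ 2 * x ^ (((2 : ℕ) : ℝ) * (48 / 100 : ℝ)) :=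
      mul_le_mul_of_nonneg_right h2 h4.le
    nlinarith
  have hX : ∀ᶠ x : ℝ in atTop, X0 ≤ 2 * x ^ 2 := by
    filter_upwards [eventually_ge_atTop (max 1 X0)] with x hx
    have h1 : 1 ≤ x := (le_max_left _ _).trans hx
    have h2 : X0 ≤ x := (le_max_right _ _).trans hx
    nlinarith
  obtain ⟨x1, hx1⟩ := eventually_atTop.1 (hlog.and (hpow.and (hX.and (eventually_ge_atTop (100 : ℝ)))))
  obtain ⟨n₀, hn₀⟩ := exists_nat_ge x1
  refine ⟨t, ht, c / 8, by positivity, ν, hν, n₀, ?_⟩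
  intro n hn A hA
  have hnx : x1 ≤ (n : ℝ) := hn₀.trans (by exact_mod_cast hn)
  obtain ⟨y1, y2, y3, y4⟩ := hx1 n hnx
  have hn0 : (0 : ℝ) < n := by linarith
  have hnn : n ≤ n ^ 2 := Nat.le_self_pow (by norm_num) n
  have hA2 : A ≤ n ^ 2 := by
    rw [mem_insert, mem_singleton] at hA
    rcases hA with rfl | rfl
    · exact Nat.sub_le _ _
    · exact le_rfl
  have hA2r : (A : ℝ) ≤ (n : ℝ) ^ 2 := by exact_mod_cast hA2
  set L : ℝ := ν * Real.log (2 * (n : ℝ) ^ 2) with hL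
  have hL0 : 0 ≤ L := by
    rw [hL]
    apply mul_nonneg hν.le
    apply Real.log_nonneg
    nlinarith
  set Ln : ℕ := ⌈L⌉₊ with hLn
  have hLn1 : L ≤ Ln := Nat.le_ceil L
  have hLn2 : (Ln : ℝ) < L + 1 := Nat.ceil_lt_add_one hL0
  have hLnn : Ln ≤ n := by
    have : (Ln : ℝ) ≤ n := by linarith
    exact_mod_cast this
  set Hn : ℕ := n - Ln with hHn
  have hHr : (Hn : ℝ) = n - Ln := by rw [hHn, Nat.cast_sub hLnn]
  have hH1 : (n : ℝ) / 2 ≤ Hn := by rw [hHr]; linarith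
  have hnn' : (n : ℝ) ≤ (n : ℝ) ^ 2 := by nlinarith
  have hLn3 : (0 : ℝ) ≤ Ln := Nat.cast_nonneg _
  have h := H (2 * (n : ℝ) ^ 2) y3 A Hn (y2.trans hH1) (by rw [hHr]; linarith)
  have hlogn : 0 < Real.log n := Real.log_pos (by linarith)
  have hlog2 : Real.log (2 * (n : ℝ) ^ 2) ≤ 4 * Real.log n := by
    rw [Real.log_mul (by norm_num) (by positivity), Real.log_pow]
    have : Real.log 2 ≤ Real.log n := Real.log_le_log (by norm_num) (by linarith)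
    push_cast
    linarith
  have hlog3 : 0 < Real.log (2 * (n : ℝ) ^ 2) := Real.log_pos (by nlinarith)
  have h8 : c / 8 * ((n : ℝ) / Real.log n) ≤ c * (Hn / Real.log (2 * (n : ℝ) ^ 2) ^ 1) := by
    rw [pow_one]
    have h1 : (n : ℝ) / 2 / (4 * Real.log n) ≤ Hn / Real.log (2 * (n : ℝ) ^ 2) := div_le_div₀ (by linarith) hH1 hlog3 hlog2
    have h2 := mul_le_mul_of_nonneg_left h1 hc.le
    have h3 : c * ((n : ℝ) / 2 / (4 * Real.log n)) = c / 8 * ((n : ℝ) / Real.log n) := by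
      field_simp
      ring
    linarith
  refine h8.trans (h.trans ?_)
  have hw : (n : ℝ) ^ (1 / 8 : ℝ) ≤ (2 * (n : ℝ) ^ 2) ^ ((48 / 100 : ℝ) / 7) := by
    calc (n : ℝ) ^ (1 / 8 : ℝ) ≤ (n : ℝ) ^ (((2 : ℕ) : ℝ) * ((48 / 100 : ℝ) / 7)) :=
          Real.rpow_le_rpow_of_exponent_le (by linarith) (by norm_num)
      _ = ((n : ℝ) ^ 2) ^ ((48 / 100 : ℝ) / 7) := by rw [Real.rpow_mul hn0.le, Real.rpow_natCast]
      _ ≤ _ := Real.rpow_le_rpow (by positivity) (by nlinarith) (by norm_num)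
  have hTy : ∀ (z : ℝ) (m : ℤ), Ty z {0} m ↔ Ro z m := by
    intro z m
    unfold Ty
    simp
  have hfin : (Strings q a j₁ ((n : ℝ) ^ (1 / 8 : ℝ)) ((2 * (n : ℝ) ^ 2) ^ (1 / (t : ℝ))) L A (A + n)).Finite := by
    apply (Set.finite_Iic (A + n)).subset
    rintro r ⟨m, hm0, _, hm2, _⟩
    rw [Set.mem_Iic, ← hm0]
    exact (hm2 0).2.1
  have hsub : StrI q 3 ((2 * (n : ℝ) ^ 2) ^ ((48 / 100 : ℝ) / 7)) ((2 * (n : ℝ) ^ 2) ^ (1 / (t : ℝ))) (ν * Real.log (2 * (n : ℝ) ^ 2) ^ 1)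
      (fun _ : Fin 1 => ({0} : Finset ℕ)) (fun _ => 0) a j₁ 0 A Hn ⊆
      Strings q a j₁ ((n : ℝ) ^ (1 / 8 : ℝ)) ((2 * (n : ℝ) ^ 2) ^ (1 / (t : ℝ))) L A (A + n) := by
    rintro r ⟨hr, m, hm0, hm1, hm2, hm3, hm4, hm5, hm6, hm7⟩
    rw [pow_one, ← hL] at hm2 hm7
    rw [mem_Ioc] at hr
    refine ⟨m, hm0, hm1, fun j => ⟨?_, ?_, hm2 j⟩, hm3, fun j => (hTy _ _).1 (hm4 j), hm5, fun p hp hd => hw.trans (hm6 p hp hd), ?_⟩
    · have := hm1.monotone (Fin.zero_le j)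
      omega
    · have h1 := hm2 j
      have h2 : (r : ℝ) ≤ A + Hn := by exact_mod_cast hr.2
      have h3 : (m j : ℝ) ≤ A + n := by
        rw [hHr] at h2
        linarith
      exact_mod_cast h3
    · intro s hs hro
      obtain ⟨j, hj, _⟩ := hm7 0 s hs ((hTy _ _).2 hro)
      exact ⟨j, hj⟩
  exact_mod_cast Set.ncard_le_ncard hsub hfin

theorem result : ∀ (J q : ℕ), 1 ≤ q → ∀ a : Fin (J + 1) → ℕ, (∀ j, (a j).Coprime q) → ∀ j₁ : Fin (J + 1),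
    ∃ t : ℕ, 1 ≤ t ∧ ∃ c : ℝ, 0 < c ∧ ∃ ν : ℝ, 0 < ν ∧ ∃ n₀ : ℕ, ∀ n : ℕ, n₀ ≤ n → ∀ A ∈ ({n ^ 2 - n, n ^ 2} : Finset ℕ),
      c * (n / Real.log n) ≤ ((Strings q a j₁ ((n : ℝ) ^ (1 / 8 : ℝ)) ((2 * (n : ℝ) ^ 2) ^ (1 / (t : ℝ))) (ν * Real.log (2 * (n : ℝ) ^ 2)) A (A + n)).ncard : ℝ) :=
  fun J q hq a ha j₁ => main stiC J q hq a ha j₁

end Pool.Agent.Results.MP_1e9cc8_nt.StringsOfResidues
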