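import Pool.Agent.Q197.SP.R1e9

/-!
# The thresholds `N(k)` of the `k`-fold Oppermann conjecture in Cramér's random model: limit points

`A` is Cramér's random model of the primes. `N A k` is the least threshold: for every `n > N A k` both intervals of the
question contain at least `k` elements. Put `θ(k) = (N / (2 log N) - k) / √N` with `N = N A k`. Almost surely the limit
points of `θ` are exactly the numbers from `1 / √2` to `1`.
-/

set_option autoImplicit false

namespace Pool.Agent.Results.MP_1e9cc8_nt.ThresholdLimitPoints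

open MeasureTheory Filter Pool.Agent.Q120.MF Pool.Agent.Q197.SP.R1e9
open scoped Topology

theorem result :
    (∃ (Ω : Type) (_ : MeasurableSpace Ω) (μ : Measure Ω) (A : Ω → Set ℕ), IsProbabilityMeasure μ ∧ IsCramer μ A) ∧
    ∀ (Ω : Type) [MeasurableSpace Ω] (μ : Measure Ω) [IsProbabilityMeasure μ] (A : Ω → Set ℕ), IsCramer μ A →
      ∀ᵐ ω ∂μ,
        -- the assertion of the question
        (∀ k : ℕ, ∀ n, N (A ω) k < n → AtLeast (A ω) k n) ∧
        -- all thresholds: `1 / √2 - o(1) ≤ θ(k) ≤ 1 + o(1)`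
        (∀ ε : ℝ, 0 < ε → ∀ᶠ k : ℕ in atTop, 1 / √2 - ε < θ (A ω) k ∧ θ (A ω) k < 1 + ε) ∧
        -- the limit points
        (∀ x : ℝ, MapClusterPt x atTop (θ (A ω)) ↔ 1 / √2 ≤ x ∧ x ≤ 1) := by
  refine ⟨all_parts.1, fun Ω _ μ _ A hA => ?_⟩
  filter_upwards [all_parts.2 Ω μ A hA] with ω h
  exact ⟨h.1, h.2.1, h.2.2.1⟩

end Pool.Agent.Results.MP_1e9cc8_nt.ThresholdLimitPoints
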