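import Pool.Agent.Q197.SP.R1e9

/-!
# The thresholds `N(k)` of the `k`-fold Oppermann conjecture in Cramér's random model: the spectrum

`A` is Cramér's random model of the primes. `N A k` is the least threshold: for every `n > N A k` both intervals of the
question contain at least `k` elements. Put `θ(k) = (N / (2 log N) - k) / √N` with `N = N A k`. Almost surely, for
`1 / √2 ≤ t < 1`, the number of the `k ≤ K` with `θ(k) > t` is `K ^ (3 / 2 - t ^ 2 + o(1))`.
-/

set_option autoImplicit false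

namespace Pool.Agent.Results.MP_1e9cc8_nt.ThresholdSpectrum

open MeasureTheory Filter Pool.Agent.Q120.MF Pool.Agent.Q197.SP.R1e9
open scoped Topology

theorem result :
    (∃ (Ω : Type) (_ : MeasurableSpace Ω) (μ : Measure Ω) (A : Ω → Set ℕ), IsProbabilityMeasure μ ∧ IsCramer μ A) ∧
    ∀ (Ω : Type) [MeasurableSpace Ω] (μ : Measure Ω) [IsProbabilityMeasure μ] (A : Ω → Set ℕ), IsCramer μ A →
      ∀ᵐ ω ∂μ, ∀ t : ℝ, 1 / √2 ≤ t → t < 1 → ∀ ε : ℝ, 0 < ε → ∀ᶠ K : ℕ in atTop,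
        (K : ℝ) ^ (3 / 2 - t ^ 2 - ε) ≤ count (A ω) t K ∧ (count (A ω) t K : ℝ) ≤ (K : ℝ) ^ (3 / 2 - t ^ 2 + ε) := by
  refine ⟨all_parts.1, fun Ω _ μ _ A hA => ?_⟩
  filter_upwards [all_parts.2 Ω μ A hA] with ω h
  exact h.2.2.2

end Pool.Agent.Results.MP_1e9cc8_nt.ThresholdSpectrum
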